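import Mathlib

/-!
# Class-preserving automorphisms of finite groups: direct products, and the extremal groups are nilpotent
-/

set_option autoImplicit false

open scoped commutatorElement

namespace Pool.Agent.H90.AC

/-- The class-preserving automorphisms of `G`. -/
abbrev AutC (G : Type) [Group G] : Type := {α : G ≃* G // ∀ w : G, IsConj w (α w)}

section congr

variable {G H : Type} [Group G] [Group H]

theorem card_ac_congr (e : G ≃* H) : Nat.card (AutC G) = Nat.card (AutC H) := by
  have hmap : ∀ {G H : Type} [Group G] [Group H] (e : G ≃* H) (α : AutC G) (w : H),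
      IsConj w ((e.symm.trans ((α : G ≃* G).trans e)) w) := by
    intro G H _ _ e α w
    obtain ⟨c, hc⟩ := isConj_iff.1 (α.2 (e.symm w))
    refine isConj_iff.2 ⟨e c, ?_⟩
    have h := congrArg e hc
    simpa using h
  exact Nat.card_congr
    { toFun := fun α => ⟨e.symm.trans ((α : G ≃* G).trans e), hmap e α⟩
      invFun := fun α => ⟨e.symm.symm.trans ((α : H ≃* H).trans e.symm), hmap e.symm α⟩
      left_inv := fun α => Subtype.ext (MulEquiv.ext fun x => by simp)
      right_inv := fun α => Subtype.ext (MulEquiv.ext fun x => by simp) }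

theorem card_commutator_congr (e : G ≃* H) :
    Nat.card (commutator G) = Nat.card (commutator H) := by
  have h : (commutator G).map e.toMonoidHom = commutator H := by
    rw [commutator_def, commutator_def, Subgroup.map_commutator,
      Subgroup.map_top_of_surjective _ e.surjective]
  rw [← h]
  exact Nat.card_congr ((commutator G).equivMapOfInjective e.toMonoidHom e.injective).toEquiv

end congr

section pi

variable {ι : Type} [Fintype ι] (H : ι → Type) [∀ i, Group (H i)] [∀ i, Finite (H i)]

theorem card_ac_pi : Nat.card (AutC (∀ i, H i)) = ∏ i, Nat.card (AutC (H i)) := by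
  classical
  rw [← Nat.card_pi]
  symm
  let F : (∀ i, AutC (H i)) → AutC (∀ i, H i) := fun a =>
    ⟨MulEquiv.piCongrRight fun i => (a i : H i ≃* H i), fun w => by
      choose g hg using fun i => isConj_iff.1 ((a i).2 (w i))
      exact isConj_iff.2 ⟨g, funext hg⟩⟩
  have hF : ∀ (a : ∀ i, AutC (H i)) (w : ∀ i, H i) (i : ι),
      (F a).1 w i = (a i).1 (w i) := fun a w i => rfl
  refine Nat.card_congr (Equiv.ofBijective F ⟨fun a b hab => ?_, fun α => ?_⟩)
  · funext i
    refine Subtype.ext (MulEquiv.ext fun h => ?_)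
    have h1 := hF a (Pi.mulSingle i h) i
    have h2 := hF b (Pi.mulSingle i h) i
    rw [Pi.mulSingle_eq_same] at h1 h2
    rw [← h1, ← h2, hab]
  · -- the components
    let f : ∀ i, H i →* H i := fun i => (Pi.evalMonoidHom H i).comp
      ((α.1.toMonoidHom).comp (MonoidHom.mulSingle H i))
    have hf : ∀ i h, f i h = α.1 (Pi.mulSingle i h) i := fun i h => rfl
    have hconj : ∀ (w : ∀ i, H i) i, IsConj (w i) (α.1 w i) := by
      intro w i
      obtain ⟨c, hc⟩ := isConj_iff.1 (α.2 w)
      exact isConj_iff.2 ⟨c i, congrFun hc i⟩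
    have hfc : ∀ i h, IsConj h (f i h) := by
      intro i h
      have h1 := hconj (Pi.mulSingle i h) i
      rwa [Pi.mulSingle_eq_same] at h1
    have hbij : ∀ i, Function.Bijective (f i) := by
      intro i
      refine Finite.injective_iff_bijective.1 ((injective_iff_map_eq_one (f i)).2 fun h hh => ?_)
      have h1 := hfc i h
      rw [hh] at h1
      exact isConj_one_left.1 h1
    refine ⟨fun i => ⟨MulEquiv.ofBijective (f i) (hbij i), fun w => hfc i w⟩, ?_⟩
    refine Subtype.ext (MulEquiv.ext fun w => funext fun i => ?_)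
    rw [hF]
    change f i (w i) = _
    rw [hf]
    obtain ⟨y, hy⟩ : ∃ y, y = (Pi.mulSingle i (w i))⁻¹ * w := ⟨_, rfl⟩
    have hw : w = Pi.mulSingle i (w i) * y := by rw [hy]; group
    have hy1 : y i = 1 := by rw [hy]; simp
    have h1 := hconj y i
    rw [hy1] at h1
    have h2 : α.1 y i = 1 := isConj_one_right.1 h1
    conv_rhs => rw [hw]
    rw [map_mul, Pi.mul_apply, h2, mul_one]

omit [∀ i, Finite (H i)] in
theorem card_commutator_pi :
    Nat.card (commutator (∀ i, H i)) = ∏ i, Nat.card (commutator (H i)) := by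
  have h : commutator (∀ i, H i) = Subgroup.pi Set.univ fun i => commutator (H i) := by
    have h1 := Subgroup.commutator_pi_pi_of_finite (Gs := H) (fun i => ⊤) (fun i => ⊤)
    rw [Subgroup.pi_top] at h1
    exact h1
  rw [h, ← Nat.card_pi]
  exact Nat.card_congr (Equiv.Set.univPi fun i => ((commutator (H i) : Subgroup (H i)) : Set (H i)))

end pi

section bound

variable (G : Type) [Group G] [Group.FG G]

theorem exists_map : ∃ (S : Finset G) (φ : AutC G → (S → commutator G)),
    S.card = Group.rank G ∧ Subgroup.closure (S : Set G) = ⊤ ∧ Function.Injective φ ∧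
      ∀ (α : AutC G) (s : S), (s : G) * (φ α s : G) = (α : G ≃* G) s := by
  obtain ⟨S, hS, hS'⟩ := Group.rank_spec G
  have hmem : ∀ (α : AutC G) (s : G), s⁻¹ * (α : G ≃* G) s ∈ commutator G := by
    intro α s
    obtain ⟨c, hc⟩ := isConj_iff.1 (α.2 s)
    have e : s⁻¹ * (α : G ≃* G) s = ⁅s⁻¹, c⁆ := by rw [← hc, commutatorElement_def]; group
    rw [e]
    exact Subgroup.commutator_mem_commutator (Subgroup.mem_top _) (Subgroup.mem_top _)
  refine ⟨S, fun α s => ⟨_, hmem α s⟩, hS, hS', fun α β h => ?_, fun α s => by simp⟩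
  refine Subtype.ext (MulEquiv.toMonoidHom_injective ?_)
  refine MonoidHom.eq_of_eqOn_dense hS' fun s hs => ?_
  have h1 := congrArg Subtype.val (congrFun h ⟨s, hs⟩)
  simpa using h1

variable [Finite (commutator G)]

theorem finite_ac : Finite (AutC G) := by
  obtain ⟨S, φ, -, -, h2, -⟩ := exists_map G
  exact Finite.of_injective φ h2

theorem card_le : Nat.card (AutC G) ≤ Nat.card (commutator G) ^ Group.rank G := by
  obtain ⟨S, φ, h1, -, h2, -⟩ := exists_map G
  have h3 := Nat.card_le_card_of_injective φ h2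
  rwa [Nat.card_fun, Nat.card_eq_fintype_card (α := S), Fintype.card_coe, h1] at h3

theorem card_ac_pos : 0 < Nat.card (AutC G) := by
  have : Finite (AutC G) := finite_ac G
  have : Nonempty (AutC G) := ⟨⟨MulEquiv.refl G, fun w => IsConj.refl w⟩⟩
  exact Nat.card_pos

variable {G}

omit [Group.FG G] [Finite (commutator G)] in
theorem abelian_case (h : ∀ a b : G, a * b = b * a) (n : ℕ) :
    Nat.card (AutC G) = Nat.card (commutator G) ^ n := by
  have h1 : commutator G = ⊥ := by
    rw [commutator_def, Subgroup.commutator_eq_bot_iff_le_centralizer]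
    intro a _ b _
    exact h b a
  have h2 : Nat.card (commutator G) = 1 := by rw [h1, Subgroup.card_bot]
  rw [h2, one_pow, Nat.card_eq_one_iff_unique]
  refine ⟨⟨fun α β => ?_⟩, ⟨⟨MulEquiv.refl G, fun w => IsConj.refl w⟩⟩⟩
  have h3 : ∀ (α : AutC G) w, (α : G ≃* G) w = w := by
    intro α w
    obtain ⟨c, hc⟩ := isConj_iff.1 (α.2 w)
    rw [← hc, h c w]
    group
  exact Subtype.ext (MulEquiv.ext fun w => by rw [h3, h3])

omit [Group.FG G] [Finite (commutator G)] in
theorem abelian_of_card (h : Nat.card (commutator G) = 1) (a b : G) : a * b = b * a := by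
  have h1 : commutator G = ⊥ := Subgroup.card_eq_one.1 h
  have h2 : ⁅a, b⁆ ∈ commutator G :=
    Subgroup.commutator_mem_commutator (Subgroup.mem_top _) (Subgroup.mem_top _)
  rw [h1, Subgroup.mem_bot, commutatorElement_eq_one_iff_mul_comm] at h2
  exact h2

end bound

theorem eq_of_prod_eq {ι : Type} [Fintype ι] {f g : ι → ℕ} (hf : ∀ i, 0 < f i)
    (hfg : ∀ i, f i ≤ g i) (h : ∏ i, f i = ∏ i, g i) (i : ι) : f i = g i := by
  by_contra hne
  have := Finset.prod_lt_prod (s := Finset.univ) (fun i _ => hf i) (fun i _ => hfg i)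
    ⟨i, Finset.mem_univ i, lt_of_le_of_ne (hfg i) hne⟩
  omega

end Pool.Agent.H90.AC
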