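import Mathlib
import Pool.Agent.H90.AC.Prod

/-!
# A gap for groups that are not nilpotent
-/

set_option autoImplicit false

open scoped commutatorElement

namespace Pool.Agent.H90.AC

theorem gap (G : Type) [Group G] [Group.FG G] [Finite (commutator G)] (M : Subgroup G) (hM : IsCoatom M)
    (hcon : ¬ commutator G ≤ M) :
    Nat.card (AutC G) + Nat.card (M ⊓ commutator G : Subgroup G) ^ Group.rank G ≤
      Nat.card (commutator G) ^ Group.rank G := by
  obtain ⟨S, φ, h1, h2, h3, h4⟩ := exists_map G
  have hsup : M ⊔ commutator G = ⊤ := hM.2 _ (lt_of_le_of_ne le_sup_left fun he => hcon (by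
    rw [he]; exact le_sup_right))
  have hex : ∀ s : S, ∃ m ∈ M, ∃ u ∈ commutator G, m * u = (s : G) := fun s =>
    Subgroup.mem_sup_of_normal_right.1 (hsup ▸ Subgroup.mem_top _)
  choose m hm u hu hmu using hex
  let ψ : (S → (M ⊓ commutator G : Subgroup G)) → (S → commutator G) := fun w s =>
    ⟨(u s)⁻¹ * (w s : G), mul_mem (inv_mem (hu s)) (w s).2.2⟩
  have hψ : Function.Injective ψ := by
    intro w w' h
    funext s
    have h5 := congrArg Subtype.val (congrFun h s)
    simpa [ψ] using h5
  have hne : ∀ α w, φ α ≠ ψ w := by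
    intro α w h
    have h5 : ∀ s : S, (α : G ≃* G) s ∈ M := by
      intro s
      rw [← h4, h]
      have e : (s : G) * ((ψ w s : commutator G) : G) = m s * (w s : G) := by
        change (s : G) * ((u s)⁻¹ * (w s : G)) = _
        rw [← hmu s]
        group
      rw [e]
      exact mul_mem (hm s) (w s).2.1
    have h6 : (Subgroup.closure (S : Set G)).map (α : G ≃* G).toMonoidHom ≤ M := by
      rw [MonoidHom.map_closure, Subgroup.closure_le]
      rintro _ ⟨s, hs, rfl⟩
      exact h5 ⟨s, hs⟩
    rw [h2, Subgroup.map_top_of_surjective _ (α : G ≃* G).surjective] at h6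
    exact hM.1 (top_le_iff.1 h6)
  have hinj : Function.Injective (Sum.elim φ ψ) := Function.Injective.sumElim h3 hψ hne
  have h7 := Nat.card_le_card_of_injective _ hinj
  have hfin : Finite (AutC G) := finite_ac G
  have hfin' : Finite (M ⊓ commutator G : Subgroup G) :=
    Finite.of_injective (fun x : (M ⊓ commutator G : Subgroup G) => (⟨x, x.2.2⟩ : commutator G))
      fun x y h => Subtype.ext (congrArg (fun z : commutator G => (z : G)) h)
  rwa [Nat.card_sum, Nat.card_fun, Nat.card_fun, Nat.card_eq_fintype_card (α := S),
    Fintype.card_coe, h1] at h7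

/-- A finite group with the maximal number of class-preserving automorphisms is nilpotent. -/
theorem nilpotent_of_eq {G : Type} [Group G] [Finite G]
    (h : Nat.card (AutC G) = Nat.card (commutator G) ^ Group.rank G) : Group.IsNilpotent G := by
  refine (Group.isNilpotent_of_finite_tfae (G := G)).out 2 0 |>.1 fun M hM => ?_
  have hle : commutator G ≤ M := by
    by_contra hcon
    have h1 := gap G M hM hcon
    have h2 : 0 < Nat.card (M ⊓ commutator G : Subgroup G) ^ Group.rank G :=
      pow_pos Nat.card_pos _
    omega
  refine ⟨fun x hx g => ?_⟩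
  have e : g * x * g⁻¹ = ⁅g, x⁆ * x := by rw [commutatorElement_def]; group
  rw [e]
  exact mul_mem (hle (Subgroup.commutator_mem_commutator (Subgroup.mem_top _)
    (Subgroup.mem_top _))) hx

end Pool.Agent.H90.AC
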