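import Mathlib
import Pool.Agent.H90.AC.Gap

/-!
# A finitely generated group with finite commutator subgroup has a central subgroup of finite index
that meets the commutator subgroup trivially
-/

set_option autoImplicit false

namespace Pool.Agent.H90.AC

/-- In a finitely generated abelian group some power map kills all elements of finite order. -/
theorem exists_exponent (Z : Type) [CommGroup Z] [Group.FG Z] :
    ∃ m : ℕ, 0 < m ∧ ∀ z : Z, IsOfFinOrder z → z ^ m = 1 := by
  have : Module.Finite ℤ (Additive Z) := Module.Finite.iff_addGroup_fg.mpr inferInstance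
  have hfin : Finite (Submodule.torsion ℤ (Additive Z)) :=
    Module.finite_of_fg_torsion _ Submodule.torsion_isTorsion
  refine ⟨Nat.card (Submodule.torsion ℤ (Additive Z)), Nat.card_pos, fun z hz => ?_⟩
  obtain ⟨n, hn, hz⟩ := isOfFinOrder_iff_pow_eq_one.1 hz
  have hmem : Additive.ofMul z ∈ Submodule.torsion ℤ (Additive Z) := by
    rw [Submodule.mem_torsion_iff]
    refine ⟨⟨(n : ℤ), mem_nonZeroDivisors_of_ne_zero (by exact_mod_cast hn.ne')⟩, ?_⟩
    change (n : ℤ) • Additive.ofMul z = 0
    rw [natCast_zsmul, ← ofMul_pow, hz, ofMul_one]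
  have h1 : Nat.card (Submodule.torsion ℤ (Additive Z)) •
      (⟨Additive.ofMul z, hmem⟩ : Submodule.torsion ℤ (Additive Z)) = 0 := card_nsmul_eq_zero'
  have h2 := congrArg Subtype.val h1
  have h3 : Nat.card (Submodule.torsion ℤ (Additive Z)) • Additive.ofMul z = 0 := h2
  rw [← ofMul_pow] at h3
  exact Additive.ofMul.injective h3

open scoped IsMulCommutative in
theorem exists_central (G : Type) [Group G] [Group.FG G] [Finite (commutator G)] :
    ∃ N : Subgroup G, N ≤ Subgroup.center G ∧ N ⊓ commutator G = ⊥ ∧ N.FiniteIndex := by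
  have hcs : Finite (commutatorSet G) := by
    refine Set.Finite.subset (Set.toFinite ((commutator G : Subgroup G) : Set G)) ?_
    rw [commutator_eq_closure]
    exact Subgroup.subset_closure
  have hfi : (Subgroup.center G).FiniteIndex := inferInstance
  have hfg : Group.FG (Subgroup.center G) := inferInstance
  obtain ⟨m, hm, hm'⟩ := exists_exponent (Subgroup.center G)
  obtain ⟨H, hH⟩ : ∃ H, H = (powMonoidHom m : Subgroup.center G →* Subgroup.center G).range :=
    ⟨_, rfl⟩
  have hHfin : Finite (Subgroup.center G ⧸ H) := by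
    have hfg' : Group.FG (Subgroup.center G ⧸ H) := inferInstance
    refine CommGroup.finite_of_fg_isMulTorsion (Subgroup.center G ⧸ H) fun q => ?_
    obtain ⟨z, rfl⟩ := QuotientGroup.mk_surjective q
    refine isOfFinOrder_iff_pow_eq_one.2 ⟨m, hm, ?_⟩
    rw [← QuotientGroup.mk_pow, QuotientGroup.eq_one_iff, hH]
    exact ⟨z, rfl⟩
  refine ⟨H.map (Subgroup.center G).subtype, ?_, ?_, ?_⟩
  · rintro _ ⟨z, -, rfl⟩
    exact z.2
  · rw [eq_bot_iff]
    rintro x ⟨⟨z, hz, rfl⟩, hx⟩
    rw [hH] at hz
    obtain ⟨w, rfl⟩ := hz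
    have h1 : IsOfFinOrder ((powMonoidHom m : Subgroup.center G →* Subgroup.center G) w) := by
      have h2 : IsOfFinOrder (⟨_, hx⟩ : commutator G) := isOfFinOrder_of_finite _
      obtain ⟨n, hn, h3⟩ := isOfFinOrder_iff_pow_eq_one.1 h2
      refine isOfFinOrder_iff_pow_eq_one.2 ⟨n, hn, Subtype.ext ?_⟩
      have h4 := congrArg Subtype.val h3
      exact h4
    have h4 : IsOfFinOrder w := h1.of_pow hm.ne'
    have h5 : (powMonoidHom m : Subgroup.center G →* Subgroup.center G) w = 1 := hm' w h4
    rw [h5]
    exact Subgroup.one_mem _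
  · refine ⟨?_⟩
    rw [Subgroup.index_map_subtype]
    refine mul_ne_zero ?_ hfi.index_ne_zero
    rw [Subgroup.index_eq_card]
    exact Nat.card_pos.ne'

end Pool.Agent.H90.AC
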