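import Mathlib
import Pool.Agent.H90.AC.Gap
import Pool.Graph.R_pool_sql_team_seeded_620a6dc7.Results.MP_932391_al.Classification

/-!
# All finite groups with `|Aut_c(G)| = |γ₂(G)| ^ d(G)`
-/

set_option autoImplicit false

open scoped commutatorElement

namespace Pool.Agent.H90.AC

/-- The three families of finite `p`-groups with the maximal number of class-preserving automorphisms. -/
def Good (p : ℕ) (P : Type) [Group P] [Finite P] : Prop :=
  (⁅commutator P, (⊤ : Subgroup P)⁆ = ⊥ ∧
      ∀ x : P, x ∉ frattini P → ∀ u ∈ commutator P, IsConj x (x * u)) ∨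
    (Group.rank P = 2 ∧ IsCyclic (commutator P) ∧
      (p = 2 → ∀ u ∈ commutator P, ∀ g : P, ∃ v ∈ commutator P, ⁅u, g⁆ = v ^ 4)) ∨
    (p = 2 ∧ Group.rank P = 2 ∧ (∀ u ∈ commutator P, u ^ 2 = 1) ∧
      ⁅⁅commutator P, (⊤ : Subgroup P)⁆, (⊤ : Subgroup P)⁆ = ⊥)

theorem pgroup (p : ℕ) [Fact p.Prime] (P : Type) [Group P] [Finite P] (hP : IsPGroup p P) :
    Nat.card (AutC P) = Nat.card (commutator P) ^ Group.rank P ↔ Good p P :=
  Pool.Agent.Results.MP_932391_al.Classification.result p P hP

theorem factor (p : ℕ) [Fact p.Prime] (P : Type) [Group P] [Finite P] (hP : IsPGroup p P) (d : ℕ)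
    (hd : Group.rank P ≤ d) :
    Nat.card (AutC P) = Nat.card (commutator P) ^ d ↔
      (∀ a b : P, a * b = b * a) ∨ (Group.rank P = d ∧ Good p P) := by
  constructor
  · intro h
    by_cases hab : ∀ a b : P, a * b = b * a
    · exact Or.inl hab
    · right
      have h1 : 1 < Nat.card (commutator P) := by
        by_contra hcon
        have h2 : 0 < Nat.card (commutator P) := Nat.card_pos
        exact hab (abelian_of_card (by omega))
      have h3 := card_le P
      rw [h] at h3
      have h4 : d ≤ Group.rank P := (Nat.pow_le_pow_iff_right h1).1 h3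
      have h5 : Group.rank P = d := le_antisymm hd h4
      exact ⟨h5, (pgroup p P hP).1 (by rw [h5]; exact h)⟩
  · rintro (h | ⟨h1, h2⟩)
    · exact abelian_case h d
    · rw [← h1]
      exact (pgroup p P hP).2 h2

theorem nilpotent_iff (G : Type) [Group G] [Finite G] (hG : Group.IsNilpotent G) (d : ℕ)
    (hd : Group.rank G ≤ d) :
    Nat.card (AutC G) = Nat.card (commutator G) ^ d ↔
      ∀ (p : ℕ) [Fact p.Prime] (P : Sylow p G),
        (∀ a b : P, a * b = b * a) ∨ (Group.rank P = d ∧ Good p P) := by
  classical
  obtain ⟨e⟩ := (Group.isNilpotent_of_finite_tfae (G := G)).out 0 4 |>.1 hG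
  have hfin : ∀ p : (Nat.card G).primeFactors, Fintype (Sylow p G) := fun p => Fintype.ofFinite _
  have hprime : ∀ p : (Nat.card G).primeFactors, Fact (p : ℕ).Prime := fun p =>
    ⟨Nat.prime_of_mem_primeFactors p.2⟩
  have h1 : Nat.card (AutC G) =
      ∏ p : (Nat.card G).primeFactors, ∏ P : Sylow p G, Nat.card (AutC P) := by
    rw [← card_ac_congr e, card_ac_pi]
    exact Finset.prod_congr rfl fun p _ => card_ac_pi _
  have h2 : Nat.card (commutator G) =
      ∏ p : (Nat.card G).primeFactors, ∏ P : Sylow p G, Nat.card (commutator P) := by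
    rw [← card_commutator_congr e, card_commutator_pi]
    exact Finset.prod_congr rfl fun p _ => card_commutator_pi _
  have hrank : ∀ (p : (Nat.card G).primeFactors) (P : Sylow p G), Group.rank P ≤ d := by
    intro p P
    refine le_trans (Group.rank_le_of_surjective
      ((Pi.evalMonoidHom (fun P : Sylow p G => P) P).comp
        ((Pi.evalMonoidHom (fun p : (Nat.card G).primeFactors => ∀ P : Sylow p G, P) p).comp
          e.symm.toMonoidHom)) ?_) hd
    intro x
    refine ⟨e (Pi.mulSingle p (Pi.mulSingle P x)), ?_⟩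
    simp
  have hle : ∀ (p : (Nat.card G).primeFactors) (P : Sylow p G),
      Nat.card (AutC P) ≤ Nat.card (commutator P) ^ d := fun p P =>
    (card_le P).trans (Nat.pow_le_pow_right Nat.card_pos (hrank p P))
  have hpow : Nat.card (commutator G) ^ d =
      ∏ p : (Nat.card G).primeFactors, ∏ P : Sylow p G,
        Nat.card (commutator P) ^ d := by
    rw [h2, ← Finset.prod_pow]
    exact Finset.prod_congr rfl fun p _ => (Finset.prod_pow _ _ _).symm
  rw [h1, hpow]
  constructor
  · intro h p hp P
    by_cases hdvd : p ∣ Nat.card G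
    · have hmem : p ∈ (Nat.card G).primeFactors :=
        Nat.mem_primeFactors.2 ⟨hp.out, hdvd, Nat.card_pos.ne'⟩
      have h3 := eq_of_prod_eq
        (f := fun p : (Nat.card G).primeFactors => ∏ P : Sylow p G, Nat.card (AutC P))
        (g := fun p : (Nat.card G).primeFactors =>
          ∏ P : Sylow p G, Nat.card (commutator P) ^ d)
        (fun p => Finset.prod_pos fun P _ => card_ac_pos P)
        (fun p => Finset.prod_le_prod' fun P _ => hle p P) h ⟨p, hmem⟩
      let _ : Fintype (Sylow p G) := hfin ⟨p, hmem⟩
      have h4 := eq_of_prod_eq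
        (f := fun P : Sylow p G => Nat.card (AutC P))
        (g := fun P : Sylow p G => Nat.card (commutator P) ^ d)
        (fun P => card_ac_pos P) (fun P => hle ⟨p, hmem⟩ P) h3 P
      exact (factor p P P.isPGroup' _ (hrank ⟨p, hmem⟩ P)).1 h4
    · left
      have h5 : Nat.card P = 1 := by
        by_contra hne
        obtain ⟨n, hn⟩ := P.isPGroup'.exists_card_eq
        have h6 : n ≠ 0 := by
          rintro rfl
          exact hne (by simpa using hn)
        exact hdvd ((dvd_pow_self p h6).trans (hn ▸ (P : Subgroup G).card_subgroup_dvd_card))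
      have h7 := (Nat.card_eq_one_iff_unique.1 h5).1
      intro a b
      exact Subsingleton.elim _ _
  · intro h
    refine Finset.prod_congr rfl fun p _ => Finset.prod_congr rfl fun P _ => ?_
    have := hprime p
    exact (factor p P P.isPGroup' _ (hrank p P)).2 (h p P)

/-- The classification for all finite groups; `d` is at least the rank. -/
theorem iff_all (G : Type) [Group G] [Finite G] (d : ℕ) (hd : Group.rank G ≤ d) :
    Nat.card (AutC G) = Nat.card (commutator G) ^ d ↔
      Group.IsNilpotent G ∧ ∀ (p : ℕ) [Fact p.Prime] (P : Sylow p G),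
        (∀ a b : P, a * b = b * a) ∨ (Group.rank P = d ∧ Good p P) := by
  refine ⟨fun h => ?_, fun h => (nilpotent_iff G h.1 d hd).2 h.2⟩
  have hnil : Group.IsNilpotent G := by
    by_cases hab : ∀ a b : G, a * b = b * a
    · let _ : CommGroup G := { mul_comm := hab }
      exact CommGroup.isNilpotent
    · have h1 : 1 < Nat.card (commutator G) := by
        by_contra hcon
        have h2 : 0 < Nat.card (commutator G) := Nat.card_pos
        exact hab (abelian_of_card (by omega))
      have h3 := card_le G
      rw [h] at h3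
      have h4 : d ≤ Group.rank G := (Nat.pow_le_pow_iff_right h1).1 h3
      exact nilpotent_of_eq (by rw [le_antisymm hd h4]; exact h)
  exact ⟨hnil, (nilpotent_iff G hnil d hd).1 h⟩

end Pool.Agent.H90.AC
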