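import Mathlib
import Pool.Agent.H90.AC.Gap

/-!
# Passing to a quotient on which `γ₂` stays the same
-/

set_option autoImplicit false

open scoped commutatorElement

namespace Pool.Agent.H90.AC

variable {G Q : Type} [Group G] [Group Q] (π : G →* Q)
  (hinj : ∀ u ∈ commutator G, π u = 1 → u = 1)

theorem conj_mem {x y : G} (h : IsConj x y) : x⁻¹ * y ∈ commutator G := by
  obtain ⟨c, hc⟩ := isConj_iff.1 h
  have e : x⁻¹ * y = ⁅x⁻¹, c⁆ := by rw [← hc, commutatorElement_def]; group
  rw [e]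
  exact Subgroup.commutator_mem_commutator (Subgroup.mem_top _) (Subgroup.mem_top _)

include hinj

theorem uniq {y z : G} (h : y⁻¹ * z ∈ commutator G) (hyz : π y = π z) : y = z := by
  have h1 := hinj _ h (by rw [map_mul, map_inv, hyz, inv_mul_cancel])
  exact (inv_mul_eq_one.1 h1)

theorem uniq_conj {x y z : G} (hy : IsConj x y) (hz : IsConj x z) (hyz : π y = π z) : y = z :=
  uniq π hinj (conj_mem (hy.symm.trans hz)) hyz

theorem ker_central {n : G} (hn : π n = 1) (g : G) : g * n = n * g := by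
  have h1 : ⁅g, n⁆ ∈ commutator G :=
    Subgroup.commutator_mem_commutator (Subgroup.mem_top _) (Subgroup.mem_top _)
  have h2 := hinj _ h1 (by simp [commutatorElement_def, hn])
  exact commutatorElement_eq_one_iff_mul_comm.1 h2

theorem card_commutator_eq (hπ : Function.Surjective π) :
    Nat.card (commutator G) = Nat.card (commutator Q) := by
  have h : (commutator G).map π = commutator Q := by
    rw [commutator_def, commutator_def, Subgroup.map_commutator,
      Subgroup.map_top_of_surjective _ hπ]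
  let f : commutator G → commutator Q := fun u => ⟨π u, h ▸ Subgroup.mem_map_of_mem π u.2⟩
  refine Nat.card_congr (Equiv.ofBijective f ⟨fun u v huv => ?_, fun w => ?_⟩)
  · refine Subtype.ext (uniq π hinj (mul_mem (inv_mem u.2) v.2) ?_)
    exact congrArg Subtype.val huv
  · obtain ⟨u, hu, hw⟩ := (by rw [h]; exact w.2 : (w : Q) ∈ (commutator G).map π)
    exact ⟨⟨u, hu⟩, Subtype.ext hw⟩

/-- The lift of a class-preserving automorphism of `Q`. -/
theorem exists_lift (hπ : Function.Surjective π) (β : AutC Q) : ∃ a : G →* G, ∀ x, IsConj x (a x) ∧ π (a x) = β.1 (π x) := by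
  have h1 : ∀ x : G, ∃ y, IsConj x y ∧ π y = β.1 (π x) := by
    intro x
    obtain ⟨q, hq⟩ := isConj_iff.1 (β.2 (π x))
    obtain ⟨g, rfl⟩ := hπ q
    exact ⟨g * x * g⁻¹, isConj_iff.2 ⟨g, rfl⟩, by rw [map_mul, map_mul, map_inv, hq]⟩
  choose a ha1 ha2 using h1
  refine ⟨MonoidHom.mk' a fun x y => ?_, fun x => ⟨ha1 x, ha2 x⟩⟩
  refine uniq π hinj ?_ (by rw [ha2, map_mul, map_mul, map_mul, ha2, ha2])
  have h2 := conj_mem (ha1 x)
  have h3 := conj_mem (ha1 y)
  have h4 := conj_mem (ha1 (x * y))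
  have h5 : (x * y)⁻¹ * (a x * a y) ∈ commutator G := by
    have e : (x * y)⁻¹ * (a x * a y) = (y⁻¹ * (x⁻¹ * a x) * y⁻¹⁻¹) * (y⁻¹ * a y) := by group
    rw [e]
    exact mul_mem ((inferInstance : (commutator G).Normal).conj_mem _ h2 _) h3
  have e : (a (x * y))⁻¹ * (a x * a y) =
      ((x * y)⁻¹ * a (x * y))⁻¹ * ((x * y)⁻¹ * (a x * a y)) := by group
  rw [e]
  exact mul_mem (inv_mem h4) h5

theorem card_ac_eq (hπ : Function.Surjective π) [Finite Q] :
    Nat.card (AutC G) = Nat.card (AutC Q) := by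
  -- the induced automorphism
  have hker : ∀ (α : AutC G) (n : G), π n = 1 → π (α.1 n) = 1 := by
    intro α n hn
    obtain ⟨c, hc⟩ := isConj_iff.1 (α.2 n)
    rw [← hc, map_mul, map_mul, hn, mul_one, map_inv, mul_inv_cancel]
  have hdown : ∀ α : AutC G, ∃ β : AutC Q, ∀ x, β.1 (π x) = π (α.1 x) := by
    intro α
    let b : Q →* Q := π.liftOfSurjective hπ ⟨π.comp α.1.toMonoidHom, fun n hn => hker α n hn⟩
    have hb : ∀ x, b (π x) = π (α.1 x) := fun x =>
      π.liftOfRightInverse_comp_apply _ _ ⟨π.comp α.1.toMonoidHom, fun n hn => hker α n hn⟩ x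
    have hsurj : Function.Surjective b := by
      intro q
      obtain ⟨y, rfl⟩ := hπ q
      exact ⟨π (α.1.symm y), by rw [hb, MulEquiv.apply_symm_apply]⟩
    have hbij : Function.Bijective b := Finite.surjective_iff_bijective.1 hsurj
    refine ⟨⟨MulEquiv.ofBijective b hbij, fun q => ?_⟩, fun x => hb x⟩
    obtain ⟨y, rfl⟩ := hπ q
    obtain ⟨c, hc⟩ := isConj_iff.1 (α.2 y)
    refine isConj_iff.2 ⟨π c, ?_⟩
    change _ = b (π y)
    rw [hb, ← hc, map_mul, map_mul, map_inv]
  choose F hF using hdown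
  refine Nat.card_congr (Equiv.ofBijective F ⟨fun α α' h => ?_, fun β => ?_⟩)
  · refine Subtype.ext (MulEquiv.ext fun x => ?_)
    refine uniq_conj π hinj (α.2 x) (α'.2 x) ?_
    rw [← hF α, ← hF α', h]
  · obtain ⟨a, ha⟩ := exists_lift π hinj hπ β
    obtain ⟨a', ha'⟩ := exists_lift π hinj hπ ⟨β.1.symm, fun q => by
      have := β.2 (β.1.symm q)
      rw [MulEquiv.apply_symm_apply] at this
      exact this.symm⟩
    have h1 : ∀ x, a (a' x) = x := by
      intro x
      refine uniq_conj π hinj (((ha' x).1).trans (ha (a' x)).1) (IsConj.refl x) ?_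
      rw [(ha (a' x)).2, (ha' x).2]
      exact MulEquiv.apply_symm_apply _ _
    have h2 : ∀ x, a' (a x) = x := by
      intro x
      refine uniq_conj π hinj (((ha x).1).trans (ha' (a x)).1) (IsConj.refl x) ?_
      rw [(ha' (a x)).2, (ha x).2]
      exact MulEquiv.symm_apply_apply _ _
    let A : G ≃* G := { a with invFun := a', left_inv := h2, right_inv := h1 }
    refine ⟨⟨A, fun x => (ha x).1⟩, ?_⟩
    refine Subtype.ext (MulEquiv.ext fun q => ?_)
    obtain ⟨y, rfl⟩ := hπ q
    rw [hF]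
    exact (ha y).2

end Pool.Agent.H90.AC
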